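import Pool.Agent.H29.SX.Targets

/-!
MP_c65535_nt, board shx_modules, row ROW: choice of conjugate rows (Speiser).
-/

set_option autoImplicit false

namespace Pool.Agent.H17.SX

open Pool.Agent.H29.SX

section

variable {K Ω : Type} [Field K] [Field Ω] [Algebra K Ω] [IsGalois K Ω] {R : ℕ}

open Classical in
/-- Galois descent: a stable subspace contains a rational vector -/
theorem descent (Y : Submodule Ω (Fin R → Ω)) (hY : Y ≠ ⊥)
    (hst : ∀ (σ : Ω ≃ₐ[K] Ω), ∀ y ∈ Y, (fun j => σ (y j)) ∈ Y) :
    ∃ x : Fin R → K, x ≠ 0 ∧ (fun j => algebraMap K Ω (x j)) ∈ Y := by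
  obtain ⟨y0, hy0, hy0n⟩ := Submodule.exists_mem_ne_zero_of_ne_bot hY
  let P : ℕ → Prop := fun n => ∃ y ∈ Y, y ≠ 0 ∧ (Finset.univ.filter fun j => y j ≠ 0).card = n
  have hP : ∃ n, P n := ⟨_, y0, hy0, hy0n, rfl⟩
  obtain ⟨y, hy, hyn, hyc⟩ := Nat.find_spec hP
  obtain ⟨j0, hj0⟩ : ∃ j, y j ≠ 0 := by
    by_contra h
    push Not at h
    exact hyn (funext h)
  set z : Fin R → Ω := (y j0)⁻¹ • y with hz
  have hzY : z ∈ Y := Y.smul_mem _ hy
  have hz0 : z j0 = 1 := by
    rw [hz, Pi.smul_apply, smul_eq_mul, inv_mul_cancel₀ hj0]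
  have hzs : ∀ j, z j ≠ 0 ↔ y j ≠ 0 := by
    intro j
    rw [hz, Pi.smul_apply, smul_eq_mul]
    simp [hj0]
  have hfix : ∀ (σ : Ω ≃ₐ[K] Ω) j, σ (z j) = z j := by
    intro σ
    by_contra h
    push Not at h
    obtain ⟨j1, hj1⟩ := h
    set v : Fin R → Ω := (fun j => σ (z j)) - z with hv
    have hvY : v ∈ Y := Y.sub_mem (hst σ z hzY) hzY
    have hvn : v ≠ 0 := by
      intro h0
      apply hj1
      have := congrFun h0 j1
      rw [hv, Pi.sub_apply, Pi.zero_apply, sub_eq_zero] at this
      exact this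
    have hlt : (Finset.univ.filter fun j => v j ≠ 0).card <
        (Finset.univ.filter fun j => y j ≠ 0).card := by
      apply Finset.card_lt_card
      rw [Finset.ssubset_iff_of_subset]
      · refine ⟨j0, ?_, ?_⟩
        · rw [Finset.mem_filter]
          exact ⟨Finset.mem_univ _, hj0⟩
        · rw [Finset.mem_filter]
          rintro ⟨-, h1⟩
          apply h1
          rw [hv, Pi.sub_apply, hz0, map_one, sub_self]
      · intro j hj
        rw [Finset.mem_filter] at hj ⊢
        refine ⟨hj.1, ?_⟩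
        rw [← hzs]
        intro h1
        apply hj.2
        rw [hv, Pi.sub_apply, h1, map_zero, sub_self]
    rw [hyc] at hlt
    exact Nat.find_min hP hlt ⟨v, hvY, hvn, rfl⟩
  have hr : ∀ j, ∃ x : K, algebraMap K Ω x = z j := fun j =>
    (InfiniteGalois.mem_range_algebraMap_iff_fixed (z j)).2 fun σ => hfix σ j
  choose x hx using hr
  refine ⟨x, ?_, ?_⟩
  · intro h0
    have := hx j0
    rw [h0, Pi.zero_apply, map_zero, hz0] at this
    exact zero_ne_one this
  · have : (fun j => algebraMap K Ω (x j)) = z := funext hx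
    rw [this]
    exact hzY

omit [IsGalois K Ω] in
/-- dimension of the rows orthogonal to rational vectors -/
theorem orth_dim (X : Submodule K (Fin R → K)) (S : Submodule Ω (Fin R → Ω))
    (h : ∀ x ∈ X, ∀ v ∈ S, ∑ j, algebraMap K Ω (x j) * v j = 0) :
    Module.finrank Ω S + Module.finrank K X ≤ R := by
  classical
  let n := Module.finrank K X
  let bX : Module.Basis (Fin n) K X := Module.finBasis K X
  let x : Fin n → Fin R → K := fun l => (bX l : Fin R → K)
  have hx : LinearIndependent K x := bX.linearIndependent.map' X.subtype (Submodule.ker_subtype X)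
  let F : (Fin n → K) →ₗ[K] (Fin R → K) := Fintype.linearCombination K x
  have hF : LinearMap.ker F = ⊥ := by
    rw [LinearMap.ker_eq_bot]
    exact hx.fintypeLinearCombination_injective
  obtain ⟨G, hG⟩ := LinearMap.exists_leftInverse_of_injective F hF
  have hGx : ∀ l i, (G (x l)) i = if l = i then 1 else 0 := by
    intro l i
    have h1 : F (Pi.single l 1) = x l := by
      simp only [F]
      rw [Fintype.linearCombination_apply_single, one_smul]
    have h2 : G (F (Pi.single l 1)) = Pi.single l 1 := by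
      have := LinearMap.congr_fun hG (Pi.single l 1)
      exact this
    rw [← h1, h2, Pi.single_apply]
    simp only [eq_comm]
  have hGe : ∀ (v : Fin R → K) i, (G v) i = ∑ j, v j * (G (Pi.single j 1)) i := by
    intro v i
    have h1 : v = ∑ j, v j • (Pi.single j (1 : K) : Fin R → K) := by
      funext t
      simp [Finset.sum_apply, Pi.single_apply]
    conv_lhs => rw [h1]
    rw [map_sum, Finset.sum_apply]
    refine Finset.sum_congr rfl fun j _ => ?_
    rw [map_smul, Pi.smul_apply, smul_eq_mul]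
  let L : (Fin R → Ω) →ₗ[Ω] (Fin n → Ω) :=
    LinearMap.pi fun l => ∑ j, algebraMap K Ω (x l j) • LinearMap.proj j
  have hL : ∀ v l, L v l = ∑ j, algebraMap K Ω (x l j) * v j := by
    intro v l
    simp only [L, LinearMap.pi_apply, LinearMap.sum_apply, LinearMap.smul_apply,
      LinearMap.proj_apply, algebraMap_smul, Algebra.smul_def]
  have hsurj : LinearMap.range L = ⊤ := by
    rw [LinearMap.range_eq_top]
    intro t
    refine ⟨fun j => ∑ i, t i * algebraMap K Ω ((G (Pi.single j 1)) i), ?_⟩
    funext l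
    rw [hL]
    have h1 : ∑ j, algebraMap K Ω (x l j) * ∑ i, t i * algebraMap K Ω ((G (Pi.single j 1)) i) =
        ∑ i, t i * algebraMap K Ω ((G (x l)) i) := by
      simp only [Finset.mul_sum]
      rw [Finset.sum_comm]
      refine Finset.sum_congr rfl fun i _ => ?_
      rw [hGe, map_sum, Finset.mul_sum]
      refine Finset.sum_congr rfl fun j _ => ?_
      rw [map_mul]
      ring
    rw [h1]
    simp only [hGx]
    rw [Finset.sum_eq_single l]
    · rw [if_pos rfl, map_one, mul_one]
    · intro i _ hi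
      rw [if_neg (fun h => hi h.symm), map_zero, mul_zero]
    · intro hh
      exact absurd (Finset.mem_univ _) hh
  have hker : S ≤ LinearMap.ker L := by
    intro v hv
    rw [LinearMap.mem_ker]
    funext l
    rw [hL]
    exact h (x l) (bX l).2 v hv
  have h1 := LinearMap.finrank_range_add_finrank_ker L
  rw [hsurj, finrank_top, Module.finrank_fin_fun, Module.finrank_fin_fun] at h1
  have h2 := Submodule.finrank_mono hker
  change Module.finrank Ω S + n ≤ R
  omega

end

theorem pf_ROW : T_ROW := by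
  intro K Ω _ _ _ _ R d0 I J u w huw X hX hR
  classical
  let rU : (Ω ≃ₐ[K] Ω) × I → Fin R → Ω := fun p j => p.1 (u p.2 j)
  let rW : (Ω ≃ₐ[K] Ω) × J → Fin R → Ω := fun p j => p.1 (w p.2 j)
  let GU : Set (Fin R → Ω) := Set.range rU
  let GW : Set (Fin R → Ω) := Set.range rW
  have hstab : ∀ (σ : Ω ≃ₐ[K] Ω), ∀ v ∈ GU ∪ GW, (fun j => σ (v j)) ∈ GU ∪ GW := by
    intro σ v hv
    rcases hv with ⟨⟨τ, i⟩, rfl⟩ | ⟨⟨τ, i⟩, rfl⟩
    · exact Or.inl ⟨(σ * τ, i), rfl⟩
    · exact Or.inr ⟨(σ * τ, i), rfl⟩
  let Y : Submodule Ω (Fin R → Ω) :=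
    { carrier := {x | ∀ v ∈ GU ∪ GW, ∑ j, x j * v j = 0}
      add_mem' := by
        intro x y hx hy v hv
        simp only [Pi.add_apply, add_mul, Finset.sum_add_distrib]
        rw [hx v hv, hy v hv, add_zero]
      zero_mem' := by
        intro v _
        simp
      smul_mem' := by
        intro c x hx v hv
        simp only [Pi.smul_apply, smul_eq_mul, mul_assoc]
        rw [← Finset.mul_sum, hx v hv, mul_zero] }
  have hYst : ∀ (σ : Ω ≃ₐ[K] Ω), ∀ y ∈ Y, (fun j => σ (y j)) ∈ Y := by
    intro σ y hy v hv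
    have h1 := hy _ (hstab σ⁻¹ v hv)
    have h2 := congrArg σ h1
    rw [map_sum, map_zero] at h2
    rw [← h2]
    refine Finset.sum_congr rfl fun j _ => ?_
    rw [map_mul]
    congr 1
    exact (AlgEquiv.apply_symm_apply σ (v j)).symm
  have hYbot : Y = ⊥ := by
    by_contra hne
    obtain ⟨x, hx0, hxY⟩ := descent Y hne hYst
    apply hx0
    apply huw
    · intro i
      exact hxY (rU (1, i)) (Or.inl ⟨(1, i), rfl⟩)
    · intro i
      exact hxY (rW (1, i)) (Or.inr ⟨(1, i), rfl⟩)
  have htop : Submodule.span Ω (GU ∪ GW) = ⊤ := by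
    by_contra hne
    obtain ⟨φ, hφ0, hφ⟩ := Submodule.exists_le_ker_of_lt_top _ (lt_top_iff_ne_top.2 hne)
    have hx : (fun i => φ fun j => if i = j then 1 else 0) ∈ Y := by
      intro v hv
      have h1 : φ v = 0 := hφ (Submodule.subset_span hv)
      rw [LinearMap.pi_apply_eq_sum_univ] at h1
      refine Eq.trans (Finset.sum_congr rfl fun j _ => ?_) h1
      rw [smul_eq_mul, mul_comm]
    rw [hYbot, Submodule.mem_bot] at hx
    apply hφ0
    refine LinearMap.ext fun v => ?_
    rw [LinearMap.pi_apply_eq_sum_univ, LinearMap.zero_apply]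
    refine Finset.sum_eq_zero fun i _ => ?_
    have := congrFun hx i
    simp only [Pi.zero_apply] at this
    rw [this, smul_zero]
  obtain ⟨b1, hb1s, hb1sp, hb1li⟩ := exists_linearIndependent Ω GU
  obtain ⟨b2, hb2s, hb12, hb2sp, hb2li⟩ := exists_linearIndepOn_id_extension hb1li
    (hb1s.trans (Set.subset_union_left : GU ⊆ GU ∪ GW))
  have hb2li : LinearIndependent Ω ((↑) : b2 → Fin R → Ω) := hb2li
  have hb2f : b2.Finite := hb2li.setFinite
  have hb1f : b1.Finite := hb2f.subset hb12
  have hcf : (b2 \ b1).Finite := hb2f.subset Set.sdiff_subset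
  have hb2top : Submodule.span Ω b2 = ⊤ := by
    rw [eq_top_iff, ← htop, Submodule.span_le]
    exact hb2sp
  have hcard2 : b2.ncard = R := by
    have := hb2f.fintype
    have h1 := finrank_span_set_eq_card hb2li
    rw [hb2top, finrank_top, Module.finrank_fin_fun] at h1
    rw [Set.ncard_eq_toFinset_card', ← h1]
  have hcard1 : b1.ncard = Module.finrank Ω (Submodule.span Ω GU) := by
    have := hb1f.fintype
    have h1 := finrank_span_set_eq_card hb1li
    rw [hb1sp] at h1
    rw [Set.ncard_eq_toFinset_card', ← h1]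
  have hsum : b1.ncard + (b2 \ b1).ncard = R := by
    have h1 := Set.ncard_sdiff_add_ncard_of_subset hb12 hb2f
    omega
  have : Finite b1 := hb1f
  have : Finite (b2 \ b1 : Set (Fin R → Ω)) := hcf
  let e1 : Fin b1.ncard ≃ b1 := (Finite.equivFinOfCardEq (Nat.card_coe_set_eq b1)).symm
  let e2 : Fin (b2 \ b1).ncard ≃ (b2 \ b1 : Set (Fin R → Ω)) :=
    (Finite.equivFinOfCardEq (Nat.card_coe_set_eq (b2 \ b1))).symm
  have hf : ∀ i, ∃ p, rU p = (e1 i : Fin R → Ω) := fun i => hb1s (e1 i).2
  have hg : ∀ i, ∃ p, rW p = (e2 i : Fin R → Ω) := by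
    intro i
    rcases hb2s (e2 i).2.1 with h1 | h1
    · exfalso
      have h2 : (e2 i : Fin R → Ω) ∈ Submodule.span Ω b1 := by
        rw [hb1sp]
        exact Submodule.subset_span h1
      have h3 := hb2li.notMem_span_image (s := {y : b2 | (y : Fin R → Ω) ∈ b1})
        (x := ⟨(e2 i : Fin R → Ω), (e2 i).2.1⟩) (e2 i).2.2
      apply h3
      have h4 : ((fun y : b2 => (y : Fin R → Ω)) '' {y : b2 | (y : Fin R → Ω) ∈ b1}) = b1 := by
        ext v
        constructor
        · rintro ⟨y, hy, rfl⟩
          exact hy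
        · intro hv
          exact ⟨⟨v, hb12 hv⟩, hv, rfl⟩
      rw [h4]
      exact h2
    · exact h1
  choose f hf using hf
  choose g hg using hg
  have hrange : (Set.range fun (i : Fin b1.ncard) (j : Fin R) => (f i).1 (u (f i).2 j)) = b1 := by
    ext v
    constructor
    · rintro ⟨i, rfl⟩
      have : (fun (j : Fin R) => (f i).1 (u (f i).2 j)) = (e1 i : Fin R → Ω) := hf i
      change (fun (j : Fin R) => (f i).1 (u (f i).2 j)) ∈ b1
      rw [this]
      exact (e1 i).2
    · intro hv
      refine ⟨e1.symm ⟨v, hv⟩, ?_⟩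
      have := hf (e1.symm ⟨v, hv⟩)
      rw [Equiv.apply_symm_apply] at this
      exact this
  refine ⟨b1.ncard, (b2 \ b1).ncard, f, g, hsum, ?_, ?_, ?_⟩
  · have h1 := orth_dim X (Submodule.span Ω GU) (by
      intro x hx v hv
      induction hv using Submodule.span_induction with
      | mem v hv =>
        obtain ⟨⟨τ, i⟩, rfl⟩ := hv
        have h2 := congrArg τ (hX x hx i)
        rw [map_sum, map_zero] at h2
        rw [← h2]
        refine Finset.sum_congr rfl fun j _ => ?_
        rw [map_mul, AlgEquiv.commutes]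
      | zero => simp
      | add v v' _ _ h1 h2 =>
        simp only [Pi.add_apply, mul_add, Finset.sum_add_distrib]
        rw [h1, h2, add_zero]
      | smul c v _ h1 =>
        simp only [Pi.smul_apply, smul_eq_mul]
        have : ∀ j, algebraMap K Ω (x j) * (c * v j) = c * (algebraMap K Ω (x j) * v j) := by
          intro j
          ring
        simp only [this]
        rw [← Finset.mul_sum, h1, mul_zero])
    rw [← hcard1] at h1
    omega
  · let E : Fin b1.ncard ⊕ Fin (b2 \ b1).ncard → b2 :=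
      Sum.elim (fun i => ⟨(e1 i : Fin R → Ω), hb12 (e1 i).2⟩)
        (fun i => ⟨(e2 i : Fin R → Ω), (e2 i).2.1⟩)
    have hE : Function.Injective E := by
      rintro (i | i) (i' | i') h
      · have h1 : ((e1 i : b1) : Fin R → Ω) = ((e1 i' : b1) : Fin R → Ω) :=
          congrArg (fun y : b2 => (y : Fin R → Ω)) h
        rw [e1.injective (Subtype.ext h1)]
      · have h1 : (e1 i : Fin R → Ω) = e2 i' := congrArg Subtype.val h
        exact absurd (h1 ▸ (e1 i).2) (e2 i').2.2
      · have h1 : (e2 i : Fin R → Ω) = e1 i' := congrArg Subtype.val h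
        exact absurd (h1 ▸ (e1 i').2) (e2 i).2.2
      · have h1 : ((e2 i : (b2 \ b1 : Set (Fin R → Ω))) : Fin R → Ω) =
            ((e2 i' : (b2 \ b1 : Set (Fin R → Ω))) : Fin R → Ω) :=
          congrArg (fun y : b2 => (y : Fin R → Ω)) h
        rw [e2.injective (Subtype.ext h1)]
    have h1 := hb2li.comp E hE
    have h2 : Sum.elim (fun (i : Fin b1.ncard) (j : Fin R) => (f i).1 (u (f i).2 j))
        (fun (i : Fin (b2 \ b1).ncard) (j : Fin R) => (g i).1 (w (g i).2 j)) =
        (fun y : b2 => (y : Fin R → Ω)) ∘ E := by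
      funext i
      rcases i with i | i
      · exact hf i
      · exact hg i
    rw [h2]
    exact h1
  · intro σ i
    rw [hrange, hb1sp]
    exact Submodule.subset_span ⟨(σ, i), rfl⟩

end Pool.Agent.H17.SX
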